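import Pool.Agent.H73.KG.Stmts2

/-!
# Project KG, module NUM: the summation over the blocks
-/

set_option autoImplicit false

open MeasureTheory Set Filter Topology
open scoped ContDiff

namespace Pool.Agent.H73.KG

theorem NUM_BB_nonneg (m : ℕ → ℝ) (l : ℕ) : 0 ≤ BB m l :=
  Finset.sum_nonneg (fun _ _ => sq_nonneg _)

theorem NUM_beta (m : ℕ → ℝ) (hm : ∀ i j, i ≤ j → |m j| ≤ |m i|) (l : ℕ) :
    |m (2 ^ (l + 1) - 1)| ^ 2 * 2 ^ l ≤ BB m l := by
  unfold BB
  have h1 : ∀ i ∈ Finset.Ico (2 ^ l - 1) (2 ^ (l + 1) - 1), |m (2 ^ (l + 1) - 1)| ^ 2 ≤ m i ^ 2 := by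
    intro i hi
    rw [Finset.mem_Ico] at hi
    rw [← sq_abs (m i)]
    exact pow_le_pow_left₀ (abs_nonneg _) (hm i _ (by omega)) 2
  have h2 := Finset.card_nsmul_le_sum _ _ _ h1
  rw [Nat.card_Ico, nsmul_eq_mul] at h2
  have h3 : 2 ^ (l + 1) - 1 - (2 ^ l - 1) = 2 ^ l := by
    have : 1 ≤ 2 ^ l := Nat.one_le_two_pow
    rw [pow_succ]
    omega
  rw [h3] at h2
  push_cast at h2
  linarith

theorem NUM_BB_le (m : ℕ → ℝ) (C : ℝ) (hC : 1 ≤ C) (hm : ∀ i j, i ≤ j → |m j| ≤ |m i|)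
    (hT : ∀ l, BB m l ≤ C * |m (2 ^ l - 1)| * Real.sqrt (2 ^ l + 1)) (l : ℕ) :
    BB m l ≤ 3 * C ^ 2 := by
  induction l with
  | zero =>
    have h1 := hT 0
    have h2 : BB m 0 = |m 0| ^ 2 := by
      unfold BB
      simp
    have h3 : Real.sqrt (2 ^ 0 + 1) ≤ 3 / 2 := by
      rw [Real.sqrt_le_left (by norm_num)]
      norm_num
    have h4 : (2 ^ 0 - 1 : ℕ) = 0 := by norm_num
    rw [h4] at h1
    have h5 : |m 0| ^ 2 ≤ C * |m 0| * (3 / 2) := by
      rw [← h2]
      exact h1.trans (mul_le_mul_of_nonneg_left h3 (by positivity))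
    rw [h2]
    nlinarith [sq_nonneg (|m 0| - C * (3 / 2)), abs_nonneg (m 0)]
  | succ l ih =>
    have h1 := hT (l + 1)
    have h2 := NUM_beta m hm l
    set b := |m (2 ^ (l + 1) - 1)| with hb
    have hb0 : 0 ≤ b := abs_nonneg _
    have h0 := NUM_BB_nonneg m (l + 1)
    have h3 : (BB m (l + 1)) ^ 2 ≤ (3 * C ^ 2) ^ 2 := by
      calc (BB m (l + 1)) ^ 2 ≤ (C * b * Real.sqrt (2 ^ (l + 1) + 1)) ^ 2 :=
            pow_le_pow_left₀ h0 h1 2
        _ = C ^ 2 * b ^ 2 * (2 ^ (l + 1) + 1) := by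
            rw [mul_pow, mul_pow, Real.sq_sqrt (by positivity)]
        _ ≤ C ^ 2 * b ^ 2 * (3 * 2 ^ l) := by
            refine mul_le_mul_of_nonneg_left ?_ (by positivity)
            have : (1 : ℝ) ≤ 2 ^ l := one_le_pow₀ (by norm_num)
            rw [pow_succ]
            linarith
        _ = 3 * C ^ 2 * (b ^ 2 * 2 ^ l) := by ring
        _ ≤ 3 * C ^ 2 * (3 * C ^ 2) := by
            refine mul_le_mul_of_nonneg_left (h2.trans ih) (by positivity)
        _ = (3 * C ^ 2) ^ 2 := by ring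
    exact le_of_sq_le_sq h3 (by positivity) |>.trans le_rfl

theorem NUM_sum_BB (m : ℕ → ℝ) (L : ℕ) :
    ∑ l ∈ Finset.range L, BB m l = ∑ i ∈ Finset.range (2 ^ L - 1), m i ^ 2 := by
  induction L with
  | zero => simp
  | succ L ih =>
    rw [Finset.sum_range_succ, ih]
    unfold BB
    have h1 : 2 ^ L - 1 ≤ 2 ^ (L + 1) - 1 := by
      have := Nat.pow_le_pow_right (n := 2) (by norm_num) (Nat.le_succ L)
      omega
    exact Finset.sum_range_add_sum_Ico _ h1

theorem NUM_range_mul (F : ℕ → ℝ) (g r : ℕ) :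
    ∑ x ∈ Finset.range (r * g), F x = ∑ a ∈ Finset.range g, ∑ j ∈ Finset.range r, F (a + j * g) := by
  rw [Finset.sum_comm]
  induction r with
  | zero => simp
  | succ r ih =>
    rw [Finset.sum_range_succ, ← ih, Nat.succ_mul, Finset.sum_range_add]
    congr 1
    refine Finset.sum_congr rfl (fun a _ => ?_)
    rw [Nat.add_comm]

theorem num_thm : NUMStmt := by
  intro N g C t m hg hC ht ht1 hN hm hT hCh hlog
  set b : ℕ → ℝ := BB m with hb
  have hb0 : ∀ l, 0 ≤ b l := NUM_BB_nonneg m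
  set S := ∑ i ∈ Finset.range N, m i ^ 2 with hS
  have hS0 : 0 ≤ S := Finset.sum_nonneg (fun i _ => sq_nonneg _)
  have hsum : ∀ L, ∑ l ∈ Finset.range L, b l ≤ S := by
    intro L
    rw [hb, NUM_sum_BB]
    by_cases h : 2 ^ L - 1 ≤ N
    · exact Finset.sum_le_sum_of_subset_of_nonneg (Finset.range_subset_range.2 h)
        (fun i _ _ => sq_nonneg _)
    · push Not at h
      refine le_of_eq ?_
      symm
      refine Finset.sum_subset (Finset.range_subset_range.2 h.le) (fun i _ hi => ?_)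
      rw [Finset.mem_range, not_lt] at hi
      rw [hN i hi]
      norm_num
  have hbig : S ≤ ∑ l ∈ Finset.range (g + N * g), b l := by
    rw [hb, NUM_sum_BB]
    refine Finset.sum_le_sum_of_subset_of_nonneg (Finset.range_subset_range.2 ?_)
        (fun i _ _ => sq_nonneg _)
    have h1 : N + 1 ≤ g + N * g := by nlinarith
    have h2 : N + 1 < 2 ^ (N + 1) := Nat.lt_two_pow_self
    have h3 : 2 ^ (N + 1) ≤ 2 ^ (g + N * g) := Nat.pow_le_pow_right (by norm_num) h1
    omega
  rw [Finset.sum_range_add, NUM_range_mul (fun x => b (g + x)) g N] at hbig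
  have h1 : ∑ l ∈ Finset.range g, b l ≤ 3 * C ^ 2 * g := by
    calc ∑ l ∈ Finset.range g, b l ≤ ∑ _l ∈ Finset.range g, 3 * C ^ 2 :=
          Finset.sum_le_sum (fun l _ => NUM_BB_le m C hC hm hT l)
      _ = 3 * C ^ 2 * g := by
          rw [Finset.sum_const, Finset.card_range, nsmul_eq_mul]
          ring
  -- the shifted blocks
  have hbeta : ∀ l, |m (2 ^ (l + 1) - 1)| ^ 2 * 2 ^ l ≤ b l := NUM_beta m hm
  have hlb : ∀ a j, ∃ l, g + a + j * g = l + 1 ∧ l = (g - 1) + (a + j * g) := by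
    intro a j
    exact ⟨(g - 1) + (a + j * g), by omega, rfl⟩
  have hx : ∀ a j, |m (2 ^ (g + a + j * g) - 1)| ^ 2 * 2 ^ (g + a + j * g) ≤
      2 * b ((g - 1) + (a + j * g)) := by
    intro a j
    obtain ⟨l, hl1, hl2⟩ := hlb a j
    rw [← hl2, hl1]
    have := hbeta l
    have e : (2 : ℝ) ^ (l + 1) = 2 * 2 ^ l := by ring
    rw [e]
    linarith
  have hy : ∀ a j, |m (2 ^ (g + a + j * g) - 1)| * Real.sqrt (2 ^ (a + j * g + 2)) ≤
      Real.sqrt (8 / 2 ^ g) * Real.sqrt (b ((g - 1) + (a + j * g))) := by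
    intro a j
    obtain ⟨l, hl1, hl2⟩ := hlb a j
    have h2 := hbeta l
    rw [← hl2, hl1]
    rw [← Real.sqrt_mul (by positivity)]
    refine Real.le_sqrt_of_sq_le ?_
    rw [mul_pow, Real.sq_sqrt (by positivity)]
    have h3 : (2 : ℝ) ^ (a + j * g + 2) = 8 / 2 ^ g * 2 ^ l := by
      have h4 : (2 : ℝ) ^ g * 2 ^ (a + j * g + 2) = 8 * 2 ^ l := by
        rw [← pow_add]
        have h5 : g + (a + j * g + 2) = l + 3 := by omega
        rw [h5, pow_add]
        ring
      field_simp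
      linarith
    rw [h3]
    calc |m (2 ^ (l + 1) - 1)| ^ 2 * (8 / 2 ^ g * 2 ^ l)
        = 8 / 2 ^ g * (|m (2 ^ (l + 1) - 1)| ^ 2 * 2 ^ l) := by ring
      _ ≤ 8 / 2 ^ g * b l := mul_le_mul_of_nonneg_left h2 (by positivity)
  have hshift : ∑ a ∈ Finset.range g, ∑ j ∈ Finset.range N, b ((g - 1) + (a + j * g)) ≤ S := by
    rw [← NUM_range_mul (fun x => b ((g - 1) + x)) g N]
    refine le_trans ?_ (hsum ((g - 1) + N * g))
    rw [Finset.sum_range_add]
    have := Finset.sum_nonneg (s := Finset.range (g - 1)) (fun l _ => hb0 l)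
    linarith
  -- square roots
  set lam := Nat.log 2 (N + 1) with hlam
  have hzero : ∀ l, lam < l → b l = 0 := by
    intro l hl
    show BB m l = 0
    unfold BB
    refine Finset.sum_eq_zero (fun i hi => ?_)
    rw [Finset.mem_Ico] at hi
    have h2 : N + 1 < 2 ^ (lam + 1) := Nat.lt_pow_succ_log_self (by norm_num) _
    have h3 : 2 ^ (lam + 1) ≤ 2 ^ l := Nat.pow_le_pow_right (by norm_num) hl
    rw [hN i (by omega)]
    norm_num
  have hsq1 : ∀ L, ∑ l ∈ Finset.range L, Real.sqrt (b l) ≤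
      ∑ l ∈ Finset.range (lam + 1), Real.sqrt (b l) := by
    intro L
    have h2 : ∑ l ∈ Finset.range L, Real.sqrt (b l) ≤
        ∑ l ∈ Finset.range (max L (lam + 1)), Real.sqrt (b l) :=
      Finset.sum_le_sum_of_subset_of_nonneg (Finset.range_subset_range.2 (le_max_left _ _))
        (fun i _ _ => Real.sqrt_nonneg _)
    refine h2.trans (le_of_eq ?_)
    symm
    refine Finset.sum_subset (Finset.range_subset_range.2 (le_max_right _ _)) (fun i _ hi => ?_)
    rw [Finset.mem_range, not_lt] at hi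
    rw [hzero i (by omega), Real.sqrt_zero]
  have hsq2 : ∑ l ∈ Finset.range (lam + 1), Real.sqrt (b l) ≤
      Real.sqrt (1 + lam) * Real.sqrt S := by
    rw [← Real.sqrt_mul (by positivity)]
    refine Real.le_sqrt_of_sq_le ?_
    have h2 := sq_sum_le_card_mul_sum_sq (s := Finset.range (lam + 1))
      (f := fun l => Real.sqrt (b l))
    refine h2.trans ?_
    rw [Finset.card_range]
    have h3 : ∑ l ∈ Finset.range (lam + 1), Real.sqrt (b l) ^ 2 ≤ S := by
      calc ∑ l ∈ Finset.range (lam + 1), Real.sqrt (b l) ^ 2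
          = ∑ l ∈ Finset.range (lam + 1), b l :=
            Finset.sum_congr rfl (fun l _ => Real.sq_sqrt (hb0 l))
        _ ≤ S := hsum _
    have h4 : ((lam + 1 : ℕ) : ℝ) = 1 + lam := by push_cast; ring
    rw [h4]
    exact mul_le_mul_of_nonneg_left h3 (by positivity)
  have hsq3 : ∑ a ∈ Finset.range g, ∑ j ∈ Finset.range N, Real.sqrt (b ((g - 1) + (a + j * g))) ≤
      Real.sqrt (1 + lam) * Real.sqrt S := by
    rw [← NUM_range_mul (fun x => Real.sqrt (b ((g - 1) + x))) g N]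
    refine le_trans ?_ ((hsq1 ((g - 1) + N * g)).trans hsq2)
    rw [Finset.sum_range_add]
    have := Finset.sum_nonneg (s := Finset.range (g - 1)) (fun l _ => Real.sqrt_nonneg (b l))
    linarith
  -- the class sums
  have hcl : ∀ a ∈ Finset.range g, ∑ j ∈ Finset.range N, b (g + (a + j * g)) ≤
      C * Real.sqrt 2 * Real.sqrt (∑ j ∈ Finset.range N, b ((g - 1) + (a + j * g))) +
      C * (Real.sqrt (8 / 2 ^ g) / t ^ 2) *
        ∑ j ∈ Finset.range N, Real.sqrt (b ((g - 1) + (a + j * g))) := by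
    intro a ha
    rw [Finset.mem_range] at ha
    have h2 := hCh a ha N
    have h3 : ∑ j ∈ Finset.range N, b (g + (a + j * g)) =
        ∑ j ∈ Finset.range N, BB m (g + a + j * g) :=
      Finset.sum_congr rfl (fun j _ => by rw [← Nat.add_assoc])
    rw [h3]
    refine h2.trans (add_le_add ?_ ?_)
    · rw [mul_assoc, ← Real.sqrt_mul (by norm_num)]
      refine mul_le_mul_of_nonneg_left (Real.sqrt_le_sqrt ?_) (by linarith)
      rw [Finset.mul_sum]
      exact Finset.sum_le_sum (fun j _ => hx a j)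
    · rw [mul_assoc]
      refine mul_le_mul_of_nonneg_left ?_ (by linarith)
      rw [Finset.mul_sum]
      refine Finset.sum_le_sum (fun j _ => ?_)
      rw [div_mul_eq_mul_div]
      exact div_le_div_of_nonneg_right (hy a j) (by positivity)
  have htot : ∑ a ∈ Finset.range g, ∑ j ∈ Finset.range N, b (g + (a + j * g)) ≤
      C * Real.sqrt 2 * (Real.sqrt g * Real.sqrt S) +
      C * (Real.sqrt (8 / 2 ^ g) / t ^ 2) * (Real.sqrt (1 + lam) * Real.sqrt S) := by
    refine (Finset.sum_le_sum hcl).trans ?_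
    rw [Finset.sum_add_distrib, ← Finset.mul_sum, ← Finset.mul_sum]
    refine add_le_add ?_ ?_
    · refine mul_le_mul_of_nonneg_left ?_ (by positivity)
      rw [← Real.sqrt_mul (by positivity)]
      refine Real.le_sqrt_of_sq_le ?_
      have h2 := sq_sum_le_card_mul_sum_sq (s := Finset.range g)
        (f := fun a => Real.sqrt (∑ j ∈ Finset.range N, b ((g - 1) + (a + j * g))))
      refine h2.trans ?_
      rw [Finset.card_range]
      refine mul_le_mul_of_nonneg_left ?_ (by positivity)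
      calc _ = ∑ a ∈ Finset.range g, ∑ j ∈ Finset.range N, b ((g - 1) + (a + j * g)) :=
            Finset.sum_congr rfl (fun a _ => Real.sq_sqrt (Finset.sum_nonneg (fun j _ => hb0 _)))
        _ ≤ S := hshift
    · exact mul_le_mul_of_nonneg_left hsq3 (by positivity)
  -- numbers
  have hk : Real.sqrt (8 / 2 ^ g) / t ^ 2 * Real.sqrt (1 + lam) ≤ 3 := by
    rw [div_mul_eq_mul_div, div_le_iff₀ (by positivity), ← Real.sqrt_mul (by positivity)]
    rw [Real.sqrt_le_left (by positivity)]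
    calc 8 / 2 ^ g * (1 + (lam : ℝ)) ≤ 8 / 2 ^ g * (2 ^ g * t ^ 4) :=
          mul_le_mul_of_nonneg_left hlog (by positivity)
      _ = 8 * t ^ 4 := by field_simp
      _ ≤ (3 * t ^ 2) ^ 2 := by nlinarith [pow_pos ht 4]
  have hg1 : (1 : ℝ) ≤ g := by exact_mod_cast hg
  set y := Real.sqrt S with hy'
  set c := C * Real.sqrt g with hc
  have hy0 : 0 ≤ y := Real.sqrt_nonneg _
  have hyS : y ^ 2 = S := Real.sq_sqrt hS0
  have hsg : 1 ≤ Real.sqrt g := Real.one_le_sqrt.2 hg1
  have hc2 : c ^ 2 = C ^ 2 * g := by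
    rw [hc, mul_pow, Real.sq_sqrt (by positivity)]
  have hs2 : Real.sqrt 2 ≤ 3 / 2 := by
    rw [Real.sqrt_le_left (by norm_num)]
    norm_num
  have hfin : S ≤ 3 * C ^ 2 * g + (3 / 2) * c * y + 3 * c * y := by
    have e1 : C * Real.sqrt 2 * (Real.sqrt g * y) ≤ (3 / 2) * c * y := by
      calc C * Real.sqrt 2 * (Real.sqrt g * y) = Real.sqrt 2 * (c * y) := by rw [hc]; ring
        _ ≤ (3 / 2) * (c * y) := mul_le_mul_of_nonneg_right hs2 (by positivity)
        _ = _ := by ring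
    have e2 : C * (Real.sqrt (8 / 2 ^ g) / t ^ 2) * (Real.sqrt (1 + lam) * y) ≤ 3 * c * y := by
      calc C * (Real.sqrt (8 / 2 ^ g) / t ^ 2) * (Real.sqrt (1 + lam) * y)
          = (Real.sqrt (8 / 2 ^ g) / t ^ 2 * Real.sqrt (1 + lam)) * (C * y) := by ring
        _ ≤ 3 * (C * y) := mul_le_mul_of_nonneg_right hk (by positivity)
        _ ≤ 3 * (C * Real.sqrt g * y) := by
            have : C * y ≤ C * Real.sqrt g * y := by
              refine mul_le_mul_of_nonneg_right ?_ hy0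
              nlinarith
            linarith
        _ = _ := by rw [hc]; ring
    linarith
  have : y ^ 2 ≤ 40 * c ^ 2 := by
    have h5 : y ^ 2 ≤ 3 * c ^ 2 + (9 / 2) * c * y := by
      rw [hyS, hc2]
      linarith
    nlinarith [sq_nonneg (y - (9 / 2) * c)]
  rw [hyS, hc2] at this
  linarith

end Pool.Agent.H73.KG
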